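import Pool.Agent.P.MP_94fe55_nt.Quant2

set_option autoImplicit false

namespace Pool.Agent.Results.MP_94fe55_nt.PrimePart

open Pool.Agent.P.MP_94fe55_nt

/-- For a singular modulus `x` of discriminant `b ^ 2 - 4 a c` with norm `N`, every prime carries
less than the share `C / log log |Δ|` of `log |N|`. -/
theorem result : ∃ (C : ℝ) (D₀ : ℤ), 0 < C ∧ ∀ (τ : ℂ) (a b c : ℤ), 0 < τ.im →
    Int.gcd (Int.gcd a b) c = 1 → (a : ℂ) * τ ^ 2 + (b : ℂ) * τ + (c : ℂ) = 0 →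
    D₀ ≤ 4 * a * c - b ^ 2 → ∀ g₂ g₃ x : ℂ,
      g₂ = 60 * ∑' p : ℤ × ℤ, (((p.1 : ℂ) * τ + (p.2 : ℂ))⁻¹) ^ 4 →
      g₃ = 140 * ∑' p : ℤ × ℤ, (((p.1 : ℂ) * τ + (p.2 : ℂ))⁻¹) ^ 6 →
      x = 1728 * g₂ ^ 3 / (g₂ ^ 3 - 27 * g₃ ^ 2) →
      ∀ N : ℚ, N = Algebra.norm ℚ (IntermediateField.AdjoinSimple.gen ℚ x) → ∀ p : ℕ, p.Prime →
        (padicValRat p N : ℝ) * Real.log p * Real.log (Real.log ((4 * a * c - b ^ 2 : ℤ) : ℝ)) <
          C * Real.log |(N : ℝ)| := by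
  obtain ⟨C, D₀, hC, h⟩ := QuantP.main
  refine ⟨C, D₀ + 1, hC, fun τ a b c hτ hg e hD g₂ g₃ x h2 h3 hx => ?_⟩
  have hp : ∀ d : ℤ, d ∣ a → d ∣ b → d ∣ c → d ∣ 1 := fun d d1 d2 d3 => by
    have := Int.dvd_coe_gcd (Int.dvd_coe_gcd d1 d2) d3
    rwa [hg] at this
  obtain ⟨D, k1, k2, k3⟩ : ∃ D : ℕ, (D : ℤ) = 4 * a * c - b ^ 2 ∧ Disc D ∧ J τ ∈ VV D := by
    rcases lt_trichotomy a 0 with ha | ha | ha
    · obtain ⟨D, k1, k2⟩ := QuantP.cm_disc (τ := τ) (a := -a) (b := -b) (c := -c) hτ (by omega)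
        (fun d d1 d2 d3 => hp d (dvd_neg.1 d1) (dvd_neg.1 d2) (dvd_neg.1 d3))
        (by push_cast; linear_combination -e)
      exact ⟨D, by rw [k1]; ring, k2⟩
    · rw [ha] at hD
      nlinarith [sq_nonneg b, Int.natCast_nonneg D₀]
    · exact QuantP.cm_disc hτ ha hp e
  have hx' : x = J τ := by rw [hx, h2, h3]; rfl
  have := h D (by omega) k2 x (hx' ▸ k3)
  rw [← k1, Int.cast_natCast]
  exact fun N hN => (this N hN).1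

end Pool.Agent.Results.MP_94fe55_nt.PrimePart
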